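import Mathlib

namespace Pool.Agent.Results.MP_89f45c_al.SkewFinitesatz

universe u

section defs

variable {F : Type u} [Field F]

/-- The commutative monoid of monomials in `n` variables (remembering `σ`); the monomial
`x_1^{k_1} ⋯ x_n^{k_n}` is given by its exponents `k`. -/
def Mon (_σ : RingAut F) (n : ℕ) : Type := Multiplicative (Fin n → ℕ)

variable (σ : RingAut F) (n : ℕ)

instance : CommMonoid (Mon σ n) := inferInstanceAs (CommMonoid (Multiplicative (Fin n → ℕ)))

/-- The exponents of a monomial. -/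
def Mon.exp {σ : RingAut F} {n : ℕ} (k : Mon σ n) : Fin n → ℕ := Multiplicative.toAdd k

/-- The total degree. -/
def Mon.deg {σ : RingAut F} {n : ℕ} (k : Mon σ n) : ℕ := ∑ i, k.exp i

/-- The homomorphism `x^k ↦ σ^{|k|}`. -/
def degHom : Mon σ n →* RingAut F where
  toFun k := σ ^ k.deg
  map_one' := by
    have : (1 : Mon σ n).deg = 0 := by
      change ∑ i : Fin n, (0 : Fin n → ℕ) i = 0
      simp
    rw [this, pow_zero]
  map_mul' k l := by
    rw [← pow_add]
    congr 1
    change ∑ i : Fin n, (k.exp + l.exp) i = _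
    simp only [Pi.add_apply, Finset.sum_add_distrib]
    rfl

/-- Monomials act on the coefficients by `σ^{|k|}`. -/
instance : MulSemiringAction (Mon σ n) F := MulSemiringAction.compHom F (degHom σ n)

lemma smul_def {σ : RingAut F} {n : ℕ} (k : Mon σ n) (c : F) : k • c = (σ ^ k.deg) c := rfl

/-- The skew polynomial ring `F[x_1, …, x_n; σ]`: finite sums of `a x^k` with
`(a x^k) (b x^l) = a σ^{|k|}(b) x^{k+l}`. -/
abbrev SkewPoly : Type u := SkewMonoidAlgebra F (Mon σ n)

/-- The `σ`-affine space. -/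
def space : Set (Fin n → F) := {a | ∀ i j, σ (a j) * a i = σ (a i) * a j}

/-- `N_k(a) = σ^{k-1}(a) ⋯ σ(a) a`. -/
def N (k : ℕ) (a : F) : F := ∏ j ∈ Finset.range k, (σ ^ j) a

variable {n}

/-- The value of the monomial `x^k` at `a`. -/
def monEval (a : Fin n → F) (k : Fin n → ℕ) : F :=
  ∏ i, (σ ^ (∑ j ∈ Finset.univ.filter (· < i), k j)) (N σ (k i) (a i))

/-- The value of `f` at `a`. -/
def ev (a : Fin n → F) (f : SkewPoly σ n) : F := f.sum fun k c => c * monEval σ a k.exp

/-- The set of all polynomials vanishing at all points of `S`. -/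
def vanishing (S : Set (Fin n → F)) : Set (SkewPoly σ n) := {f | ∀ a ∈ S, ev σ a f = 0}

/-- The zero set of a left ideal. -/
def zeros (J : Ideal (SkewPoly σ n)) : Set (Fin n → F) := {a | a ∈ space σ n ∧ ∀ f ∈ J, ev σ a f = 0}

end defs

section operators

variable {F : Type u} [Field F] (σ : RingAut F)

/-- The operator `c ↦ a σ(c)`. -/
def T (a : F) : AddMonoid.End F := (AddMonoidHom.mulLeft a).comp (σ : F →+* F).toAddMonoidHom

lemma T_apply (a c : F) : T σ a c = a * σ c := rfl

lemma T_pow_apply (a : F) (k : ℕ) (c : F) : (T σ a ^ k) c = N σ k a * (σ ^ k) c := by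
  induction k with
  | zero => simp [N]
  | succ k ih =>
    rw [pow_succ']
    change T σ a ((T σ a ^ k) c) = _
    rw [ih, T_apply, map_mul, pow_succ' σ, RingAut.mul_apply]
    have : N σ (k + 1) a = a * σ (N σ k a) := by
      rw [N, Finset.prod_range_succ', N, map_prod, pow_zero, RingAut.one_apply, mul_comm]
      congr 1
      refine Finset.prod_congr rfl fun j _ => ?_
      rw [pow_succ', RingAut.mul_apply]
    rw [this]
    ring

/-- The ordered product of powers of the operators. -/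
def P {n : ℕ} (a : Fin n → F) (k : Fin n → ℕ) : AddMonoid.End F :=
  (List.ofFn fun i => T σ (a i) ^ k i).prod

lemma P_succ {n : ℕ} (a : Fin (n + 1) → F) (k : Fin (n + 1) → ℕ) :
    P σ a k = T σ (a 0) ^ k 0 * P σ (Fin.tail a) (Fin.tail k) := by
  rw [P, List.ofFn_succ, List.prod_cons]
  rfl

lemma monEval_succ {n : ℕ} (a : Fin (n + 1) → F) (k : Fin (n + 1) → ℕ) :
    monEval σ a k = N σ (k 0) (a 0) * (σ ^ k 0) (monEval σ (Fin.tail a) (Fin.tail k)) := by
  rw [monEval, Fin.prod_univ_succ, monEval, map_prod]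
  congr 1
  · have : Finset.univ.filter (fun j : Fin (n + 1) => j < 0) = ∅ := by
      ext j
      simp
    rw [this, Finset.sum_empty, pow_zero]
    rfl
  · refine Finset.prod_congr rfl fun i _ => ?_
    rw [← RingAut.mul_apply, ← pow_add]
    have : ∑ j ∈ Finset.univ.filter (fun j : Fin (n + 1) => j < i.succ), k j =
        k 0 + ∑ j ∈ Finset.univ.filter (fun j : Fin n => j < i), Fin.tail k j := by
      rw [Finset.sum_filter, Fin.sum_univ_succ, Finset.sum_filter]
      simp [Fin.tail]
    rw [this]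
    rfl

lemma P_apply {n : ℕ} (a : Fin n → F) (k : Fin n → ℕ) (c : F) :
    P σ a k c = monEval σ a k * (σ ^ (∑ i, k i)) c := by
  induction n with
  | zero =>
    rw [P, List.ofFn_zero, List.prod_nil]
    simp [monEval]
  | succ n ih =>
    rw [P_succ]
    change (T σ (a 0) ^ k 0) (P σ (Fin.tail a) (Fin.tail k) c) = _
    rw [ih, T_pow_apply, monEval_succ, map_mul, Fin.sum_univ_succ, pow_add, RingAut.mul_apply]
    rw [mul_assoc]
    rfl

lemma T_comm {n : ℕ} {a : Fin n → F} (ha : a ∈ space σ n) (i j : Fin n) :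
    Commute (T σ (a i)) (T σ (a j)) := by
  apply AddMonoidHom.ext
  intro c
  change a i * σ (a j * σ c) = a j * σ (a i * σ c)
  rw [map_mul, map_mul, ← mul_assoc, ← mul_assoc, mul_comm (a i), ha i j, mul_comm (a j)]

lemma space_tail {n : ℕ} {a : Fin (n + 1) → F} (ha : a ∈ space σ (n + 1)) :
    Fin.tail a ∈ space σ n := fun i j => ha i.succ j.succ

lemma P_commute {n : ℕ} {a : Fin n → F} (b : F) (hb : ∀ i, Commute (T σ b) (T σ (a i)))
    (k : Fin n → ℕ) (m : ℕ) : Commute (T σ b ^ m) (P σ a k) := by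
  induction n with
  | zero =>
    rw [P, List.ofFn_zero, List.prod_nil]
    exact Commute.one_right _
  | succ n ih =>
    rw [P_succ]
    exact ((hb 0).pow_pow m (k 0)).mul_right (ih (fun i => hb i.succ) _)

lemma P_add {n : ℕ} {a : Fin n → F} (ha : a ∈ space σ n) (k l : Fin n → ℕ) :
    P σ a (k + l) = P σ a k * P σ a l := by
  induction n with
  | zero =>
    simp [P]
  | succ n ih =>
    rw [P_succ, P_succ, P_succ]
    have h1 : Fin.tail (k + l) = Fin.tail k + Fin.tail l := rfl
    rw [h1, ih (space_tail σ ha), Pi.add_apply, pow_add]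
    have h2 : Commute (T σ (a 0) ^ l 0) (P σ (Fin.tail a) (Fin.tail k)) :=
      P_commute σ (a 0) (fun i => T_comm σ ha 0 i.succ) _ _
    calc T σ (a 0) ^ k 0 * T σ (a 0) ^ l 0 * (P σ (Fin.tail a) (Fin.tail k) *
          P σ (Fin.tail a) (Fin.tail l))
        = T σ (a 0) ^ k 0 * (T σ (a 0) ^ l 0 * P σ (Fin.tail a) (Fin.tail k)) *
          P σ (Fin.tail a) (Fin.tail l) := by simp only [mul_assoc]
      _ = _ := by rw [h2.eq]; simp only [mul_assoc]

/-- The action of monomials. -/
def monHom {n : ℕ} {a : Fin n → F} (ha : a ∈ space σ n) : Mon σ n →* AddMonoid.End F where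
  toFun k := P σ a k.exp
  map_one' := by
    have : (1 : Mon σ n).exp = 0 := rfl
    rw [this]
    simp [P]
  map_mul' k l := by
    have : (k * l).exp = k.exp + l.exp := rfl
    rw [this, P_add σ ha]

/-- The ring homomorphism `T_a`. -/
noncomputable def Ta {n : ℕ} {a : Fin n → F} (ha : a ∈ space σ n) :
    SkewPoly σ n →+* AddMonoid.End F :=
  SkewMonoidAlgebra.liftNCRingHom (Module.toAddMonoidEnd F F) (monHom σ ha) (by
    intro x y
    apply AddMonoidHom.ext
    intro c
    change (y • x) * P σ a y.exp c = P σ a y.exp (x * c)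
    rw [P_apply, P_apply, smul_def, map_mul]
    change (σ ^ ∑ i, y.exp i) x * _ = _
    ring)

lemma Ta_single {n : ℕ} {a : Fin n → F} (ha : a ∈ space σ n) (k : Mon σ n) (b c : F) :
    Ta σ ha (SkewMonoidAlgebra.single k b) c = b * P σ a k.exp c := by
  have : Ta σ ha (SkewMonoidAlgebra.single k b) =
      Module.toAddMonoidEnd F F b * monHom σ ha k := SkewMonoidAlgebra.liftNC_single _ _ _ _
  rw [this]
  rfl

lemma ev_add {n : ℕ} (a : Fin n → F) (f g : SkewPoly σ n) :
    ev σ a (f + g) = ev σ a f + ev σ a g :=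
  SkewMonoidAlgebra.sum_add_index' (fun _ => zero_mul _) (fun _ _ _ => add_mul _ _ _)

lemma ev_single {n : ℕ} (a : Fin n → F) (k : Mon σ n) (c : F) :
    ev σ a (SkewMonoidAlgebra.single k c) = c * monEval σ a k.exp :=
  SkewMonoidAlgebra.sum_single_index (zero_mul _)

lemma Ta_one {n : ℕ} {a : Fin n → F} (ha : a ∈ space σ n) (f : SkewPoly σ n) :
    Ta σ ha f 1 = ev σ a f := by
  induction f using SkewMonoidAlgebra.induction_on with
  | zero => rw [map_zero]; exact (SkewMonoidAlgebra.sum_zero_index).symm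
  | single k c => rw [Ta_single, P_apply, map_one, mul_one, ev_single]
  | add f g hf hg => rw [map_add, ev_add, ← hf, ← hg]; rfl

/-- conjugation of points -/
def conj {n : ℕ} (a : Fin n → F) (c : F) : Fin n → F := fun i => σ c * a i * c⁻¹

lemma conj_mem {n : ℕ} {a : Fin n → F} (ha : a ∈ space σ n) {c : F} (hc : c ≠ 0) :
    conj σ a c ∈ space σ n := by
  intro i j
  have hσc : σ c ≠ 0 := (map_ne_zero_iff σ σ.injective).mpr hc
  change σ (σ c * a j * c⁻¹) * (σ c * a i * c⁻¹) = σ (σ c * a i * c⁻¹) * (σ c * a j * c⁻¹)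
  simp only [map_mul, map_inv₀]
  have h := ha i j
  field_simp
  linear_combination σ (σ c) * h

lemma T_conj (a : F) {c : F} (hc : c ≠ 0) (m : ℕ) (d : F) :
    (T σ (σ c * a * c⁻¹) ^ m) d = c⁻¹ * (T σ a ^ m) (c * d) := by
  induction m with
  | zero =>
    change d = c⁻¹ * (c * d)
    field_simp
  | succ m ih =>
    rw [pow_succ', pow_succ']
    change T σ (σ c * a * c⁻¹) ((T σ (σ c * a * c⁻¹) ^ m) d) = c⁻¹ * T σ a ((T σ a ^ m) (c * d))
    have hσc : σ c ≠ 0 := (map_ne_zero_iff σ σ.injective).mpr hc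
    rw [ih, T_apply, T_apply, map_mul, map_inv₀]
    field_simp

lemma P_conj {n : ℕ} (a : Fin n → F) {c : F} (hc : c ≠ 0) (k : Fin n → ℕ) (d : F) :
    P σ (conj σ a c) k d = c⁻¹ * P σ a k (c * d) := by
  induction n with
  | zero =>
    simp only [P, List.ofFn_zero, List.prod_nil]
    change d = c⁻¹ * (c * d)
    field_simp
  | succ n ih =>
    rw [P_succ, P_succ]
    change (T σ (σ c * a 0 * c⁻¹) ^ k 0) (P σ (conj σ (Fin.tail a) c) (Fin.tail k) d) =
      c⁻¹ * (T σ (a 0) ^ k 0) (P σ (Fin.tail a) (Fin.tail k) (c * d))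
    rw [ih, T_conj σ _ hc, mul_inv_cancel_left₀ hc]

lemma Ta_conj {n : ℕ} {a : Fin n → F} (ha : a ∈ space σ n) {c : F} (hc : c ≠ 0)
    (f : SkewPoly σ n) (d : F) :
    Ta σ (conj_mem σ ha hc) f d = c⁻¹ * Ta σ ha f (c * d) := by
  induction f using SkewMonoidAlgebra.induction_on with
  | zero =>
    rw [map_zero, map_zero]
    change 0 = c⁻¹ * 0
    rw [mul_zero]
  | single k b => rw [Ta_single, Ta_single, P_conj σ a hc]; ring
  | add f g hf hg =>
    rw [map_add, map_add]
    change Ta σ (conj_mem σ ha hc) f d + Ta σ (conj_mem σ ha hc) g d =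
      c⁻¹ * (Ta σ ha f (c * d) + Ta σ ha g (c * d))
    rw [hf, hg]
    ring

lemma ev_conj {n : ℕ} {a : Fin n → F} (ha : a ∈ space σ n) {c : F} (hc : c ≠ 0)
    (f : SkewPoly σ n) : Ta σ ha f c = c * ev σ (conj σ a c) f := by
  rw [← Ta_one σ (conj_mem σ ha hc), Ta_conj σ ha hc, mul_one, mul_inv_cancel_left₀ hc]

/-- The joint representation. -/
noncomputable def Phi (n : ℕ) : SkewPoly σ n →+* (space σ n → AddMonoid.End F) :=
  RingHom.pi fun a => Ta σ a.2

lemma Phi_apply {n : ℕ} (f : SkewPoly σ n) (a : space σ n) : Phi σ n f a = Ta σ a.2 f := rfl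

lemma semisimple [Finite F] (n : ℕ) : IsSemisimpleRing (Phi σ n).range := by
  have hfin : Finite (AddMonoid.End F) := Finite.of_injective (fun f : AddMonoid.End F => (f : F → F))
    DFunLike.coe_injective
  have hfin2 : Finite (space σ n → AddMonoid.End F) := inferInstance
  have hfin3 : Finite (Phi σ n).range := inferInstance
  have hart : IsArtinianRing (Phi σ n).range := inferInstance
  rw [IsArtinianRing.isSemisimpleRing_iff_jacobson, ← Ideal.jacobson_bot, eq_bot_iff]
  rintro ⟨x, f, rfl⟩ hx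
  rw [Ideal.mem_bot]
  by_contra hne
  have hne' : Phi σ n f ≠ 0 := fun h => hne (Subtype.ext h)
  obtain ⟨a, ha⟩ := Function.ne_iff.mp hne'
  obtain ⟨c, hc⟩ : ∃ c, Ta σ a.2 f c ≠ 0 := by
    by_contra hcon
    push Not at hcon
    exact ha (AddMonoidHom.ext hcon)
  have hc0 : c ≠ 0 := by
    rintro rfl
    exact hc (map_zero _)
  rw [Ideal.mem_jacobson_iff] at hx
  obtain ⟨z, hz⟩ := hx ⟨Phi σ n (SkewMonoidAlgebra.single 1 (-(c * (Ta σ a.2 f c)⁻¹))), _, rfl⟩
  rw [Ideal.mem_bot] at hz
  have h1 := congrArg (fun q : (Phi σ n).range => (q.1 a) c) hz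
  change z.1 a (Ta σ a.2 (SkewMonoidAlgebra.single 1 (-(c * (Ta σ a.2 f c)⁻¹))) (Ta σ a.2 f c)) +
    z.1 a c - c = 0 at h1
  rw [Ta_single] at h1
  have h2 : P σ a.1 (1 : Mon σ n).exp (Ta σ a.2 f c) = Ta σ a.2 f c := by
    have h3 : P σ a.1 (1 : Mon σ n).exp = 1 := map_one (monHom σ a.2)
    rw [h3]
    rfl
  rw [h2, neg_mul, mul_assoc, inv_mul_cancel₀ hc, mul_one, map_neg] at h1
  apply hc0
  rw [neg_add_cancel, zero_sub, neg_eq_zero] at h1
  exact h1

end operators

/-- **Strong skew Finitesatz.** For every finite field `F`, every automorphism `σ` of `F`, every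
`n` and every left ideal `J` of `F[x_1, …, x_n; σ]`, the polynomials vanishing on the zero set of
`J` are the sums of an element of `J` and a polynomial vanishing on the whole `σ`-affine space. -/
theorem result (F : Type u) [Field F] [Finite F] (σ : RingAut F) (n : ℕ)
    (J : Ideal (SkewPoly σ n)) :
    vanishing σ (zeros σ J) = {f | ∃ g ∈ J, ∃ h ∈ vanishing σ (space σ n), f = g + h} := by
  have hker : ∀ h : SkewPoly σ n, h ∈ vanishing σ (space σ n) ↔ Phi σ n h = 0 := by
    intro h
    constructor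
    · intro hh
      funext a
      apply AddMonoidHom.ext
      intro c
      change Ta σ a.2 h c = 0
      by_cases hc : c = 0
      · rw [hc, map_zero]
      · rw [ev_conj σ a.2 hc, hh _ (conj_mem σ a.2 hc), mul_zero]
    · intro hh a ha
      rw [← Ta_one σ ha]
      have := congrFun hh ⟨a, ha⟩
      rw [Phi_apply] at this
      rw [this]
      rfl
  apply Set.eq_of_subset_of_subset
  · intro f hf
    have hss := semisimple σ n
    obtain ⟨e, he, hJe⟩ := IsSemisimpleRing.ideal_eq_span_idempotent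
      (J.map (Phi σ n).rangeRestrict)
    have hmem : ∀ y, y ∈ J.map (Phi σ n).rangeRestrict ↔
        ∃ x, x ∈ J ∧ (Phi σ n).rangeRestrict x = y := fun y =>
      Ideal.mem_map_iff_of_surjective _ (Phi σ n).rangeRestrict_surjective
    have hge : ∀ g ∈ J, (Phi σ n).rangeRestrict g * e = (Phi σ n).rangeRestrict g := by
      intro g hg
      have h1 : (Phi σ n).rangeRestrict g ∈ J.map (Phi σ n).rangeRestrict :=
        (hmem _).mpr ⟨g, hg, rfl⟩
      rw [hJe, Ideal.mem_span_singleton'] at h1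
      obtain ⟨q, hq⟩ := h1
      rw [← hq, mul_assoc, he.eq]
    have hfe : (Phi σ n).rangeRestrict f * e = (Phi σ n).rangeRestrict f := by
      rw [← sub_eq_zero, ← neg_eq_zero, neg_sub]
      apply Subtype.ext
      funext a
      apply AddMonoidHom.ext
      intro c
      change Ta σ a.2 f c - Ta σ a.2 f (e.1 a c) = 0
      rw [← map_sub]
      by_cases hd : c - e.1 a c = 0
      · rw [hd, map_zero]
      · rw [ev_conj σ a.2 hd, hf, mul_zero]
        refine ⟨conj_mem σ a.2 hd, fun g hg => ?_⟩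
        have h1 := congrArg (fun q : (Phi σ n).range => q.1 a (c - e.1 a c)) (hge g hg)
        change Ta σ a.2 g (e.1 a (c - e.1 a c)) = Ta σ a.2 g (c - e.1 a c) at h1
        have h2 : e.1 a (c - e.1 a c) = 0 := by
          have h3 := congrArg (fun q : (Phi σ n).range => q.1 a c) he.eq
          change e.1 a (e.1 a c) = e.1 a c at h3
          rw [map_sub, h3, sub_self]
        rw [h2, map_zero, ev_conj σ a.2 hd] at h1
        rcases mul_eq_zero.mp h1.symm with h4 | h4
        · exact absurd h4 hd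
        · exact h4
    have h1 : (Phi σ n).rangeRestrict f ∈ J.map (Phi σ n).rangeRestrict := by
      rw [hJe, Ideal.mem_span_singleton']
      exact ⟨_, hfe⟩
    obtain ⟨g, hg, hgf⟩ := (hmem _).mp h1
    refine ⟨g, hg, f - g, ?_, by rw [add_sub_cancel]⟩
    rw [hker, map_sub, sub_eq_zero]
    exact (congrArg Subtype.val hgf).symm
  · rintro f ⟨g, hg, h, hh, rfl⟩ a ⟨ha, haJ⟩
    rw [ev_add, haJ g hg, hh a ha, add_zero]

end Pool.Agent.Results.MP_89f45c_al.SkewFinitesatz
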